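import Pool.Agent.H87.D3.Targets3

/-!
The Hessian bound in dimension three (MP_2697e3_an): row FRM, the geometry of a frame.
-/

set_option autoImplicit false

namespace Pool.Agent.H7.D3

open MeasureTheory Metric Set Filter Topology Pool.Agent.H87.SN Pool.Agent.H87.SH Pool.Agent.H87.AX
open Pool.Agent.H87.D3
open scoped ContDiff RealInnerProductSpace ENNReal

private theorem nn {m : ℕ} (L : V →L[ℝ] E m) : 0 ≤ nsq L :=
  Finset.sum_nonneg fun i _ => by positivity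

private theorem cont_rho : Continuous (fun x : V => rho x) := by
  unfold rho
  fun_prop

private theorem nrm (x : V) : ‖x‖ ^ 2 = x 0 ^ 2 + x 1 ^ 2 + x 2 ^ 2 := by
  rw [EuclideanSpace.norm_sq_eq]
  have : ∑ i : Fin (1 + 2), ‖x i‖ ^ 2 = ‖x 0‖ ^ 2 + ‖x 1‖ ^ 2 + ‖x 2‖ ^ 2 :=
    Fin.sum_univ_three (fun i : Fin (1 + 2) => ‖x i‖ ^ 2)
  rw [this]
  simp

private theorem rho_sq (x : V) : rho x ^ 2 = x 0 ^ 2 + x 1 ^ 2 := by
  unfold rho
  exact Real.sq_sqrt (by positivity)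

private theorem meas_oc (rc : ℝ) :
    MeasurableSet {x : V | x ∈ ball (0 : V) (5 / 8) ∧ rc ≤ rho x} :=
  measurableSet_ball.inter (measurableSet_le measurable_const cont_rho.measurable)

private theorem oc_sub (rc : ℝ) : {x : V | x ∈ ball (0 : V) (5 / 8) ∧ rc ≤ rho x} ⊆ ball 0 2 :=
  fun _ hx => ball_subset_ball (by norm_num) hx.1

private theorem ocb (hMUF : T_MUF) {m : ℕ} {L Λ ε : ℝ} {U : Set V} {u : V → E m}
    {G : V → V →L[ℝ] E m} (hSM : SM m L Λ ε U u G) {rc δ : ℝ} (hrc : 0 < rc) (hδ : 0 ≤ δ)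
    (h : ∀ x ∈ ball (0 : V) (5 / 8), rc ≤ rho x → x ∈ U ∧ rho x * Real.sqrt (en u x) ≤ δ) :
    oc G rc ≤ δ ^ 2 / rc ^ 2 * (volume (ball (0 : V) (5 / 8))).toReal := by
  obtain ⟨S, hS⟩ : ∃ S : Set V, S = {x : V | x ∈ ball (0 : V) (5 / 8) ∧ rc ≤ rho x} := ⟨_, rfl⟩
  have hSm : MeasurableSet S := by rw [hS]; exact meas_oc rc
  have hS2 : S ⊆ ball 0 2 := by rw [hS]; exact oc_sub rc
  have hS5 : S ⊆ ball (0 : V) (5 / 8) := by rw [hS]; exact fun x hx => hx.1
  have hSU : S ⊆ U := by rw [hS]; exact fun x hx => (h x hx.1 hx.2).1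
  have hint := ((hMUF m G hSM.gd.memG).2.2.2.1 S hSm hS2).1
  have hfin : volume (ball (0 : V) (5 / 8)) ≠ ⊤ := measure_ball_lt_top.ne
  have hvS : volume S ≤ volume (ball (0 : V) (5 / 8)) := measure_mono hS5
  have hfinS : volume S ≠ ⊤ := ne_top_of_le_ne_top hfin hvS
  have hc : IntegrableOn (fun _ : V => δ ^ 2 / rc ^ 2) S :=
    integrableOn_const (hs := hfinS)
  have hae : (fun x => nsq (G x)) ≤ᵐ[volume.restrict S] fun _ => δ ^ 2 / rc ^ 2 := by
    have h1 := ae_restrict_of_ae_restrict_of_subset hSU hSM.ae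
    filter_upwards [h1, ae_restrict_mem hSm] with x hx hxS
    rw [hx]
    have h2 : x ∈ ball (0 : V) (5 / 8) ∧ rc ≤ rho x := by rw [hS] at hxS; exact hxS
    have h3 := (h x h2.1 h2.2).2
    have h4 : rc * Real.sqrt (en u x) ≤ δ :=
      (mul_le_mul_of_nonneg_right h2.2 (Real.sqrt_nonneg _)).trans h3
    have h5 : Real.sqrt (en u x) ≤ δ / rc := by
      rw [le_div_iff₀ hrc]; linarith
    have h6 : en u x = Real.sqrt (en u x) ^ 2 := (Real.sq_sqrt (nn _)).symm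
    show en u x ≤ δ ^ 2 / rc ^ 2
    rw [h6, ← div_pow]
    exact pow_le_pow_left₀ (Real.sqrt_nonneg _) h5 2
  have hmain := setIntegral_mono_ae_restrict hint hc hae
  unfold oc
  rw [← hS]
  refine hmain.trans ?_
  rw [setIntegral_const, smul_eq_mul, mul_comm]
  refine mul_le_mul_of_nonneg_left ?_ (by positivity)
  exact ENNReal.toReal_mono hfin hvS

private theorem In_nonneg {m : ℕ} (G : V → V →L[ℝ] E m) (h Z : ℝ) : 0 ≤ In G h Z :=
  integral_nonneg fun _ => nn _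

private theorem In_le (hMUF : T_MUF) {m : ℕ} {G : V → V →L[ℝ] E m}
    (hG : MemLp G 2 (volume.restrict (ball (0 : V) 2))) {rc h Z : ℝ} (hrh : rc ≤ h) (hh : 0 < h)
    (hh1 : h ≤ 1 / 64) (hZ : Z ≤ 9 / 16) : In G h Z ≤ oc G rc := by
  unfold In oc
  have hint := ((hMUF m G hG).2.2.2.1 _ (meas_oc rc) (oc_sub rc)).1
  refine setIntegral_mono_set hint (ae_of_all _ fun _ => nn _) ?_
  refine HasSubset.Subset.eventuallyLE ?_
  intro x hx
  refine ⟨?_, hrh.trans hx.1.le⟩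
  rw [mem_ball_zero_iff]
  have h1 := nrm x
  have h2 := rho_sq x
  have h3 : rho x ^ 2 ≤ (2 * h) ^ 2 :=
    pow_le_pow_left₀ (Real.sqrt_nonneg _) hx.2.1.le 2
  have h4 : |x 2| ^ 2 ≤ (9 / 16) ^ 2 :=
    pow_le_pow_left₀ (abs_nonneg _) (hx.2.2.le.trans hZ) 2
  rw [sq_abs] at h4
  have h5 : (2 * h) ^ 2 ≤ (1 / 32) ^ 2 := pow_le_pow_left₀ (by linarith) (by linarith) 2
  have h6 : ‖x‖ ^ 2 < (5 / 8) ^ 2 := by
    rw [h1]
    norm_num at h4 h5 ⊢
    linarith
  exact lt_of_pow_lt_pow_left₀ 2 (by norm_num) h6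

private theorem oc_anti (hMUF : T_MUF) {m : ℕ} {G : V → V →L[ℝ] E m}
    (hG : MemLp G 2 (volume.restrict (ball (0 : V) 2))) {rc h : ℝ} (hrh : rc ≤ h) :
    oc G h ≤ oc G rc := by
  unfold oc
  have hint := ((hMUF m G hG).2.2.2.1 _ (meas_oc rc) (oc_sub rc)).1
  refine setIntegral_mono_set hint (ae_of_all _ fun _ => nn _) ?_
  refine HasSubset.Subset.eventuallyLE ?_
  intro x hx
  exact ⟨hx.1, hrh.trans hx.2⟩

/-- choice of the numbers -/
private theorem nums (v e δ₁ δ₂ σ h CM rc : ℝ) (hv : 0 ≤ v) (he : 0 < e) (hδ₁ : 0 < δ₁)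
    (hδ₂ : 0 < δ₂) (hσ : 0 < σ) (hh : 0 < h) (hCM : 0 ≤ CM) (hrc : 0 < rc) :
    ∃ η δ : ℝ, η ≤ e * σ / 32 ∧ η ≤ δ₂ ∧ η ≤ e / 10 ^ 7 ∧ η ≤ e / 256 * (h / 16) ∧
      CM / h * η ≤ e / 256 ∧ 0 < δ ∧ δ ≤ δ₁ ∧ δ ≤ e * σ / 128 ∧ δ ^ 2 / rc ^ 2 * v ≤ η := by
  obtain ⟨η, hη⟩ : ∃ η : ℝ, η = min (e * σ / 32) (min δ₂ (min (e / 10 ^ 7)
    (min (e / 256 * (h / 16)) (e / 256 * (h / (CM + 1)))))) := ⟨_, rfl⟩
  have hη0 : 0 < η := by
    rw [hη]
    refine lt_min (by positivity) (lt_min hδ₂ (lt_min (by positivity)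
      (lt_min (by positivity) (by positivity))))
  have a1 : η ≤ e * σ / 32 := by rw [hη]; exact min_le_left _ _
  have a2 : η ≤ δ₂ := by rw [hη]; exact (min_le_right _ _).trans (min_le_left _ _)
  have a3 : η ≤ e / 10 ^ 7 := by
    rw [hη]; exact (min_le_right _ _).trans ((min_le_right _ _).trans (min_le_left _ _))
  have a4 : η ≤ e / 256 * (h / 16) := by
    rw [hη]
    exact (min_le_right _ _).trans ((min_le_right _ _).trans
      ((min_le_right _ _).trans (min_le_left _ _)))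
  have a5 : η ≤ e / 256 * (h / (CM + 1)) := by
    rw [hη]
    exact (min_le_right _ _).trans ((min_le_right _ _).trans
      ((min_le_right _ _).trans (min_le_right _ _)))
  obtain ⟨δ, hδ⟩ : ∃ δ : ℝ, δ = min δ₁ (min (e * σ / 128) (Real.sqrt (η * rc ^ 2 / (v + 1)))) :=
    ⟨_, rfl⟩
  have hδ0 : 0 < δ := by
    rw [hδ]
    exact lt_min hδ₁ (lt_min (by positivity) (Real.sqrt_pos.2 (by positivity)))
  have b1 : δ ≤ δ₁ := by rw [hδ]; exact min_le_left _ _
  have b2 : δ ≤ e * σ / 128 := by rw [hδ]; exact (min_le_right _ _).trans (min_le_left _ _)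
  have b3 : δ ≤ Real.sqrt (η * rc ^ 2 / (v + 1)) := by
    rw [hδ]; exact (min_le_right _ _).trans (min_le_right _ _)
  refine ⟨η, δ, a1, a2, a3, a4, ?_, hδ0, b1, b2, ?_⟩
  · calc CM / h * η ≤ CM / h * (e / 256 * (h / (CM + 1))) :=
          mul_le_mul_of_nonneg_left a5 (by positivity)
      _ = e / 256 * (CM / (CM + 1)) := by field_simp
      _ ≤ e / 256 * 1 := by
          refine mul_le_mul_of_nonneg_left ?_ (by positivity)
          rw [div_le_one (by positivity)]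
          linarith
      _ = e / 256 := mul_one _
  · have c1 : δ ^ 2 ≤ η * rc ^ 2 / (v + 1) := by
      calc δ ^ 2 ≤ Real.sqrt (η * rc ^ 2 / (v + 1)) ^ 2 := pow_le_pow_left₀ hδ0.le b3 2
        _ = η * rc ^ 2 / (v + 1) := Real.sq_sqrt (by positivity)
    calc δ ^ 2 / rc ^ 2 * v ≤ η * rc ^ 2 / (v + 1) / rc ^ 2 * v := by
          refine mul_le_mul_of_nonneg_right (div_le_div_of_nonneg_right c1 (by positivity)) hv
      _ = η * (v / (v + 1)) := by field_simp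
      _ ≤ η * 1 := by
          refine mul_le_mul_of_nonneg_left ?_ hη0.le
          rw [div_le_one (by positivity)]
          linarith
      _ = η := mul_one _

/-- the coefficients of the line -/
private theorem coef (mb e h a b a' b' B : ℝ) (he : 0 < e) (hh : 0 < h) (hmb : e / 128 ≤ mb)
    (hB : B ≤ 64 * (e * h) / 10 ^ 7) (ha : |a| ≤ B) (hb : |b| ≤ B) (ha' : |a'| ≤ B)
    (hb' : |b'| ≤ B) :
    |(a + b) / (2 * mb)| + |(a' + b') / (2 * mb)| ≤ h / 50 ∧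
    |2 * (a - b) / mb| + |2 * (a' - b') / mb| ≤ h / 50 := by
  have hmb0 : 0 < mb := lt_of_lt_of_le (by positivity) hmb
  have hBm : B / mb ≤ h / 1000 := by
    rw [div_le_iff₀ hmb0]
    have h1 : h / 1000 * (e / 128) ≤ h / 1000 * mb := mul_le_mul_of_nonneg_left hmb (by positivity)
    have h2 : 64 * (e * h) / 10 ^ 7 ≤ h / 1000 * (e / 128) := by
      have : 0 < e * h := by positivity
      have e1 : h / 1000 * (e / 128) = e * h / 128000 := by ring
      rw [e1]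
      norm_num
      linarith
    linarith
  have key : ∀ s t : ℝ, |s| ≤ B → |t| ≤ B → |(s + t) / (2 * mb)| ≤ h / 1000 ∧
      |2 * (s - t) / mb| ≤ 4 * (h / 1000) := by
    intro s t hs ht
    constructor
    · rw [abs_div, abs_of_pos (by positivity : (0 : ℝ) < 2 * mb)]
      calc |s + t| / (2 * mb) ≤ (B + B) / (2 * mb) :=
            div_le_div_of_nonneg_right ((abs_add_le _ _).trans (add_le_add hs ht))
              (by positivity)
        _ = B / mb := by field_simp; ring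
        _ ≤ h / 1000 := hBm
    · rw [abs_div, abs_of_pos hmb0, abs_mul, abs_two]
      have h1 : |s - t| ≤ B + B := (abs_sub _ _).trans (add_le_add hs ht)
      calc 2 * |s - t| / mb ≤ 2 * (B + B) / mb :=
            div_le_div_of_nonneg_right (by linarith) hmb0.le
        _ = 4 * (B / mb) := by ring
        _ ≤ 4 * (h / 1000) := by linarith
  have k1 := key a b ha hb
  have k2 := key a' b' ha' hb'
  constructor
  · linarith [k1.1, k2.1]
  · linarith [k1.2, k2.2]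

theorem pf_FRM (hMUF : T_MUF) (hNCK : T_NCK) (hMAS : T_MAS) (hMLB : T_MLB) (hTHN : T_THN) :
    T_FRM := by
  obtain ⟨CM, hCM, hmas⟩ := hMAS
  refine ⟨CM, hCM, ?_⟩
  intro m L Λ ε e δ₁ δ₂ σ h hL hΛ hε he heΛ hδ₁ hδ₂ hh hhσ hσ
  have hσ0 : 0 < σ := by linarith
  have h1Λ : 0 < 1 + Λ := by linarith
  obtain ⟨rc, hrc⟩ : ∃ rc : ℝ, rc = e * h / (1 + Λ) / 10 ^ 7 := ⟨_, rfl⟩
  have hrc0 : 0 < rc := by rw [hrc]; positivity
  have hq : e * h / (1 + Λ) ≤ h := by
    rw [div_le_iff₀ h1Λ]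
    nlinarith
  have hrch : rc ≤ h / 100 := by
    rw [hrc]
    have : e * h / (1 + Λ) / 10 ^ 7 ≤ h / 10 ^ 7 := div_le_div_of_nonneg_right hq (by norm_num)
    have h2 : h / 10 ^ 7 ≤ h / 100 := by
      refine div_le_div_of_nonneg_left hh.le (by norm_num) (by norm_num)
    linarith
  have hΛrc : Λ * rc ≤ e * h / 10 ^ 7 := by
    rw [hrc]
    have h1 : Λ * (e * h / (1 + Λ)) ≤ e * h := by
      rw [mul_div_assoc', div_le_iff₀ h1Λ]
      have : 0 < e * h := by positivity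
      nlinarith
    calc Λ * (e * h / (1 + Λ) / 10 ^ 7) = Λ * (e * h / (1 + Λ)) / 10 ^ 7 := by ring
      _ ≤ e * h / 10 ^ 7 := div_le_div_of_nonneg_right h1 (by norm_num)
  have hrc2 : 64 * rc ^ 2 < e / 256 * h ^ 2 := by
    have h1 : rc * (1 + Λ) * 10 ^ 7 = e * h := by
      rw [hrc]; field_simp
    have h2 : rc ≤ e * h / 10 ^ 7 / (1 + Λ) := by rw [hrc]; apply le_of_eq; ring
    have h3 : rc ^ 2 ≤ rc * (e * h / 10 ^ 7) := by
      rw [sq]
      refine mul_le_mul_of_nonneg_left ?_ hrc0.le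
      refine h2.trans (div_le_self (by positivity) (by linarith))
    have h4 : rc * (e * h / 10 ^ 7) ≤ h / 100 * (e * h / 10 ^ 7) :=
      mul_le_mul_of_nonneg_right hrch (by positivity)
    have h5 : h / 100 * (e * h / 10 ^ 7) = e * h ^ 2 / 10 ^ 9 := by ring
    have h6 : 0 < e * h ^ 2 := by positivity
    have h7 : e / 256 * h ^ 2 = e * h ^ 2 / 256 := by ring
    rw [h7]
    rw [h5] at h4
    norm_num at h4 ⊢
    linarith
  obtain ⟨η, δ, a1, a2, a3, a4, a5, hδ0, b1, b2, b3⟩ :=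
    nums (volume (ball (0 : V) (5 / 8))).toReal e δ₁ δ₂ σ h CM rc ENNReal.toReal_nonneg he hδ₁ hδ₂
      hσ0 hh hCM hrc0
  obtain ⟨K, om, hom, hnck⟩ := hNCK m L Λ ε δ rc σ (e / (16 * Λ)) hL hΛ hε hδ0 hrc0 hσ0
    (by linarith) (by positivity)
  refine ⟨rc, K, om, hrc0, hrch, hrc2, hom, ?_⟩
  intro U u G hSM D x₀ hFr
  obtain ⟨hn1, hn2⟩ := hnck U u G hSM D e x₀ hFr
  have hmem := hSM.gd.memG
  have hrh : rc ≤ h := by linarith
  have hocrc : oc G rc ≤ η := (ocb hMUF hSM hrc0 hδ0.le hn1).trans b3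
  have hoch : oc G h ≤ η := (oc_anti hMUF hmem hrh).trans hocrc
  have hI9 : In G h (9 / 16) ≤ η :=
    (In_le hMUF hmem hrh hh (by linarith) le_rfl).trans hocrc
  have hI3 : In G h (3 / 8) ≤ η :=
    (In_le hMUF hmem hrh hh (by linarith) (by norm_num)).trans hocrc
  have hml := hMLB m G hmem σ h e x₀ hh (by linarith) (by linarith) he.le hFr.x0 hFr.ch
    (hoch.trans a1) (hn2.trans b2)
  have hJ : CM / h * In G h (9 / 16) ≤ e / 256 :=
    (mul_le_mul_of_nonneg_left hI9 (by positivity)).trans a5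
  have hmw : ∀ z₀ r : ℝ, 0 < r → |z₀| + r ≤ 9 / 16 → e / 128 ≤ ms G h z₀ r := by
    intro z₀ r hr hzr
    have h1 := (hmas m G hmem hSM.gd.stat h (9 / 16) z₀ r hh (by linarith) (by norm_num)
      (by norm_num) hr hzr).1
    have h2 := (hmas m G hmem hSM.gd.stat h (9 / 16) 0 (4 * σ) hh (by linarith) (by norm_num)
      (by norm_num) (by linarith) (by rw [abs_zero]; linarith)).1
    have h3 := abs_le.1 (h1.trans hJ)
    have h4 := abs_le.1 (h2.trans hJ)
    linarith [h3.1, h4.2]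
  refine ⟨fun x hx hx' => ⟨(hn1 x hx hx').1, (hn1 x hx hx').2.trans b1⟩, ?_, In_nonneg _ _ _,
    hI3.trans a2, ?_⟩
  · intro z₀ r hr hzr
    have hr0 : 0 < r := lt_of_lt_of_le (by positivity) hr
    refine (hTHN m G hmem h rc hrc0 hrh (by linarith)).1 z₀ r (e / 256) hr0 hzr ?_ ?_
    · have := hmw z₀ r hr0 hzr
      linarith
    · refine hocrc.trans (a4.trans ?_)
      exact mul_le_mul_of_nonneg_left hr (by positivity)
  · have hmu2 : (mu G).real (ball 0 2) ≤ 2 * Λ := by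
      have := hSM.gd.den 0 2 (by norm_num) (subset_refl _)
      linarith
    have hmo : ∀ j : Fin (1 + 2), j ≠ 2 → ∀ z₀ : ℝ, |z₀| ≤ 1 / 4 →
        |mo G h j z₀ (1 / 16)| ≤ 64 * (e * h) / 10 ^ 7 := by
      intro j hj z₀ hz
      refine ((hTHN m G hmem h rc hrc0 hrh (by linarith)).2 j hj z₀ hz).trans ?_
      have h1 : rc * (mu G).real (ball 0 2) ≤ 2 * (e * h / 10 ^ 7) := by
        calc rc * (mu G).real (ball 0 2) ≤ rc * (2 * Λ) :=
              mul_le_mul_of_nonneg_left hmu2 hrc0.le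
          _ = 2 * (Λ * rc) := by ring
          _ ≤ 2 * (e * h / 10 ^ 7) := by linarith
      have h2 : 2 * h * oc G rc ≤ 2 * h * (e / 10 ^ 7) :=
        mul_le_mul_of_nonneg_left (hocrc.trans a3) (by positivity)
      have h3 : 2 * h * (e / 10 ^ 7) = 2 * (e * h / 10 ^ 7) := by ring
      have h4 : 64 * (e * h) / 10 ^ 7 = 16 * (2 * (e * h / 10 ^ 7) + 2 * (e * h / 10 ^ 7)) := by
        ring
      rw [h4]
      linarith
    have hmb := hmw (1 / 4) (1 / 16) (by norm_num) (by norm_num)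
    obtain ⟨mb, hmbd⟩ : ∃ mb : ℝ, mb = ms G h (1 / 4) (1 / 16) := ⟨_, rfl⟩
    rw [← hmbd] at hmb
    have hmb0 : 0 < mb := lt_of_lt_of_le (by positivity) hmb
    have hz1 : |(1 / 4 : ℝ)| ≤ 1 / 4 := by norm_num
    have hz2 : |(-(1 / 4) : ℝ)| ≤ 1 / 4 := by norm_num
    have j0 : (0 : Fin (1 + 2)) ≠ 2 := by decide
    have j1 : (1 : Fin (1 + 2)) ≠ 2 := by decide
    obtain ⟨c1, c2⟩ := coef mb e h _ _ _ _ (64 * (e * h) / 10 ^ 7) he hh hmb le_rfl
      (hmo 0 j0 (1 / 4) hz1) (hmo 0 j0 (-(1 / 4)) hz2) (hmo 1 j1 (1 / 4) hz1)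
      (hmo 1 j1 (-(1 / 4)) hz2)
    refine ⟨mb, (mo G h 0 (1 / 4) (1 / 16) + mo G h 0 (-(1 / 4)) (1 / 16)) / (2 * mb),
      (mo G h 1 (1 / 4) (1 / 16) + mo G h 1 (-(1 / 4)) (1 / 16)) / (2 * mb),
      2 * (mo G h 0 (1 / 4) (1 / 16) - mo G h 0 (-(1 / 4)) (1 / 16)) / mb,
      2 * (mo G h 1 (1 / 4) (1 / 16) - mo G h 1 (-(1 / 4)) (1 / 16)) / mb,
      by linarith, c1, c2, ?_, ?_, ?_⟩
    · intro z₀ r hr hzr
      rw [hmbd]
      exact (hmas m G hmem hSM.gd.stat h (3 / 8) z₀ r hh (by linarith) (by norm_num)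
        (by norm_num) hr hzr).1
    · intro z₀ r hr hzr
      have h1 := (hmas m G hmem hSM.gd.stat h (3 / 8) z₀ r hh (by linarith) (by norm_num)
        (by norm_num) hr hzr).2.1
      have alg : ∀ p q : ℝ, mb * ((p + q) / (2 * mb) + 2 * (p - q) / mb * z₀) =
          (1 / 2 + 2 * z₀) * p + (1 / 2 - 2 * z₀) * q := by
        intro p q
        field_simp
        ring
      rw [alg, alg]
      exact ⟨h1 0 j0, h1 1 j1⟩
    · intro z₀ r hr hzr
      exact (hmas m G hmem hSM.gd.stat h (3 / 8) z₀ r hh (by linarith) (by norm_num)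
        (by norm_num) hr hzr).2.2

end Pool.Agent.H7.D3
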